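import Pool.Agent.W680.WH.Main

/-!
# A weakly homogeneous operator with a uniformly bounded homomorphic intertwiner which is not
similar to any homogeneous operator

The operator is `T = [[Z, X], [0, Z]]` on `E ⊕ E`, where `E` is the Hilbert space of the
complementary series (Fourier series on the circle with weights comparable to `(1 + |n|)^(1/2)`),
`Z` is the multiplication by the coordinate and `X = -(2 Q + Q Z* Q)` with `Q = Z - (Z*)⁻¹`.
-/

set_option autoImplicit false

open Pool.Agent.W680.WHF

namespace Pool.Agent.Results.MP_af71ff_an.NotSimilarToHomogeneous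

theorem result :
    ∃ (H : Type) (_ : NormedAddCommGroup H) (_ : InnerProductSpace ℂ H) (_ : CompleteSpace H)
    (_ : TopologicalSpace.SeparableSpace H) (T : H →L[ℂ] H),
    SpectrumInDisc T ∧ HasBoundedHomIntertwiner T ∧ ¬ IsSimilarToHomogeneous T :=
  final Pool.Agent.W680.WHM.pGCO Pool.Agent.W680.WHM.pNH Pool.Agent.W680.WHM.pBLM

end Pool.Agent.Results.MP_af71ff_an.NotSimilarToHomogeneous
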